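import Pool.Agent.W844.GP.Defs2

/-!
# Project GP part 2: escape from the origin
-/

set_option autoImplicit false

open Finset

namespace Pool.Agent.W597.GQ

open Pool.Agent.W844.VG Pool.Agent.W844.GP

variable {d : ℕ}

lemma finite_nm (M : ℕ) : {x : V d | nm x ≤ M}.Finite := by
  refine (Set.finite_Icc (fun _ => -(M : ℤ)) (fun _ => (M : ℤ))).subset ?_
  intro x hx
  have h : nm x ≤ M := hx
  rw [nm_le_iff] at h
  constructor
  · intro j
    have := h j
    show -(M : ℤ) ≤ x j
    omega
  · intro j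
    have := h j
    show x j ≤ (M : ℤ)
    omega

/-- the vertices of a hull of closed vertices are closed -/
lemma hull_closed {Z D : Set (V d)} (hD : D ⊆ Z) {y : V d} (h : y ∈ Hull Z D) : y ∈ Z := by
  obtain ⟨x, hx, hxy⟩ := h
  rcases Relation.ReflTransGen.cases_tail hxy with h1 | ⟨c, -, h1⟩
  · rw [h1]; exact hD hx
  · exact h1.1

theorem esc (hsur : S_SUR) : S_ESC := by
  classical
  intro d i hd w K R hK hfar n
  obtain ⟨N, hN⟩ : ∃ N : ℕ, N = max n R + 1 := ⟨_, rfl⟩
  have hnN : n ≤ N := by omega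
  set w' : V d → ℝ := fun x => if x i ≤ N then w x else 0 with hw'
  have hCl : ∀ x, x ∈ Cl K w' → x i ≤ N ∧ x ∈ Cl K w := by
    intro x hx
    have hx' : w' x < -K := hx
    by_cases h : x i ≤ N
    · refine ⟨h, ?_⟩
      simp only [hw', if_pos h] at hx'
      exact hx'
    · exfalso
      simp only [hw', if_neg h] at hx'
      linarith
  set D : Set (V d) := {x | x ∈ Cl K w' ∧ ∃ m : ℕ, R < m ∧ m ≤ N ∧ x = pt i m} with hD
  set A : Set (V d) := Hull (Cl K w') D with hA
  have hDCl : D ⊆ Cl K w' := fun x hx => hx.1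
  have hAnear : ∀ a ∈ A, ∃ m : ℕ, m ≤ N ∧ nm (a - pt i m) < m - 3 := by
    intro a ha
    rw [hA, hull_eq_biUnion] at ha
    simp only [Set.mem_iUnion] at ha
    obtain ⟨x, hx, hax⟩ := ha
    obtain ⟨hxc, m, h1, h2, rfl⟩ := hx
    refine ⟨m, h2, ?_⟩
    have h3 : a ∈ Hull (Cl K w) {pt i (m : ℤ)} :=
      hull_mono (fun y hy => (hCl y hy).2) (le_refl _) hax
    exact nm_lt_of_not_far (hfar m h1 (hCl _ hxc).2) a h3
  have hAfin : A.Finite := by
    refine (finite_nm (d := d) (2 * N)).subset ?_
    intro a ha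
    obtain ⟨m, h1, h2⟩ := hAnear a ha
    show nm a ≤ 2 * N
    have h3 := nm_tri a (pt i m) 0
    rw [sub_zero, sub_zero, nm_pt] at h3
    omega
  have hAh : ∀ a ∈ A, (0 : V d) i < a i ∧ a i < (pt i ((N : ℤ) + 5)) i := by
    intro a ha
    obtain ⟨m, h1, h2⟩ := hAnear a ha
    have h3 := (hCl a (hull_closed hDCl ha)).1
    have h4 := abs_le_nm (a - pt i m) i
    simp only [Pi.sub_apply, pt_same] at h4
    rw [abs_le] at h4
    rw [pt_same]
    refine ⟨?_, by omega⟩
    show (0 : ℤ) < a i
    omega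
  have hline := sb_line i 0 (N + 5)
  rw [pt_zero] at hline
  have hv : (0 : ℤ) + ((N + 5 : ℕ) : ℤ) = (N : ℤ) + 5 := by push_cast; ring
  rw [hv] at hline
  obtain ⟨l', hP, hlast, hmem⟩ := hsur d i hd A hAfin 0 (pt i ((N : ℤ) + 5))
    (line i 0 (N + 5)) hline.1.1 hline.2.1 hAh
  -- the length
  have hvmem : pt i ((N : ℤ) + 5) ∈ l' := by
    rcases List.mem_cons.1 (List.mem_of_getLast? hlast) with h | h
    · exfalso
      have := congrFun h i
      rw [pt_same] at this
      have h0 : (0 : V d) i = 0 := rfl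
      rw [h0] at this
      omega
    · exact h
  have hlen : N + 5 ≤ l'.length := by
    have h := nm_le_of_chain hP.1 _ hvmem
    rw [sub_zero, nm_pt] at h
    omega
  set l'' := l'.take n with hl''
  have hlen2 : l''.length = n := by
    rw [hl'', List.length_take]
    omega
  have hP2 : IsP (0 :: l'') := hP.prefx ((List.prefix_cons_inj 0).2 (List.take_prefix n l'))
  refine ⟨l'', hlen2, hP2, ?_⟩
  have hheight : ∀ z ∈ l'', z i ≤ n := by
    intro z hz
    have h := nm_le_of_chain hP2.1 z hz
    rw [sub_zero, hlen2] at h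
    have h2 := abs_le_nm z i
    rw [abs_le] at h2
    omega
  set S : Finset (V d) := (Icc 1 R).image (fun m : ℕ => pt i (m : ℤ)) with hS
  have hgood : ∀ z ∈ l'', -K - (if z ∈ S then max (-(w z)) 0 else 0) ≤ w z := by
    intro z hz
    have hzl : z ∈ l' := List.mem_of_mem_take hz
    have hz0 : z ≠ 0 := by
      rintro rfl
      exact (List.nodup_cons.1 hP.2).1 hzl
    have hzi := hheight z hz
    have hweq : w' z = w z := by
      simp only [hw']
      rw [if_pos (by omega)]
    obtain ⟨hzA, hor⟩ := hmem z (List.mem_cons_of_mem _ hzl)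
    by_cases hzS : z ∈ S
    · rw [if_pos hzS]
      have := le_max_left (-(w z)) 0
      linarith
    · rw [if_neg hzS, sub_zero]
      have hnc : z ∉ Cl K w' := by
        rcases hor with h | h
        · intro hzc
          rcases List.mem_cons.1 h with h | h
          · exact hz0 h
          · rw [mem_line] at h
            obtain ⟨k, h1, h2, rfl⟩ := h
            rw [pt_same] at hzi
            obtain ⟨m, rfl⟩ : ∃ m : ℕ, k = m := ⟨k.toNat, by omega⟩
            apply hzA
            apply subset_hull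
            refine ⟨hzc, m, ?_, by omega, rfl⟩
            by_contra hmR
            apply hzS
            rw [hS, mem_image]
            exact ⟨m, mem_Icc.2 ⟨by omega, by omega⟩, rfl⟩
        · exact notMem_of_nb hzA h
      have : ¬ w' z < -K := hnc
      rw [hweq] at this
      linarith
  rw [wt_eq_sum w (List.nodup_cons.1 hP2.2).2]
  have h1 : ∑ z ∈ l''.toFinset, (-K - (if z ∈ S then max (-(w z)) 0 else 0)) ≤
      ∑ z ∈ l''.toFinset, w z :=
    sum_le_sum fun z hz => hgood z (List.mem_toFinset.1 hz)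
  rw [sum_sub_distrib, sum_const, sum_ite_mem, nsmul_eq_mul,
    List.toFinset_card_of_nodup (List.nodup_cons.1 hP2.2).2, hlen2] at h1
  have h2 : ∑ z ∈ l''.toFinset ∩ S, max (-(w z)) 0 ≤ ∑ z ∈ S, max (-(w z)) 0 :=
    sum_le_sum_of_subset_of_nonneg inter_subset_right fun z _ _ => le_max_right _ _
  have h3 : ∑ z ∈ S, max (-(w z)) 0 = ∑ m ∈ Icc 1 R, max (-(w (pt i (m : ℤ)))) 0 := by
    rw [hS, sum_image]
    intro a _ b _ hab
    have := congrFun hab i
    simp only [pt_same] at this
    exact_mod_cast this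
  rw [h3] at h2
  linarith

end Pool.Agent.W597.GQ
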